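import Mathlib

namespace Pool.Agent.Results.MP_c51eea_al.No

/-- the group is isomorphic to the group of units of a finite ring -/
def Realizable (G : Type) [Group G] : Prop :=
  ∃ (R : Type) (_ : Ring R) (_ : Finite R), Nonempty (G ≃* Rˣ)

theorem sqz {R : Type} [Ring R] (hp : IsPGroup 2 Rˣ) {m : ℕ} (hm : Odd m) {a : R}
    (ha : a * a = 0) (h0 : (m : R) * a = 0) : a = 0 := by
  let u : Rˣ := ⟨1 + a, 1 - a, by noncomm_ring [ha], by noncomm_ring [ha]⟩
  have hu : ∀ j : ℕ, ((u ^ j : Rˣ) : R) = 1 + j * a := by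
    intro j
    induction j with
    | zero => simp
    | succ j ih =>
      rw [pow_succ, Units.val_mul, ih]
      change (1 + j * a) * (1 + a) = _
      push_cast
      noncomm_ring [ha]
  obtain ⟨k, hk⟩ := hp u
  have h1 : u ^ m = 1 := Units.ext (by rw [hu, h0]; simp)
  have h2 : u = 1 := by
    have := pow_gcd_eq_one.2 ⟨hk, h1⟩
    rwa [Nat.Coprime.pow_left k (Nat.coprime_two_left.2 hm), pow_one] at this
  have := congrArg Units.val h2
  simpa [u] using this

theorem key {R : Type} [Ring R] [Finite R] (hp : IsPGroup 2 Rˣ) (x z : Rˣ) (n : ℕ)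
    (hx : x * x = 1) (hz : z ^ 2 ^ (n + 1) = 1) (hxz : x * z = z⁻¹ * x)
    (hall : ∀ u : Rˣ, u * z = z * u ∨ u * z = z⁻¹ * u) : z ^ 4 = 1 := by
  obtain ⟨k, m, hm, e⟩ := Nat.exists_eq_two_pow_mul_odd (Nat.card_pos (α := R)).ne'
  have hN : (2 : R) ^ k * m = 0 := by
    have : ((Nat.card R : ℕ) : R) = 0 := by
      have := Fintype.ofFinite R
      rw [Nat.card_eq_fintype_card]; exact Nat.cast_card_eq_zero R
    rw [e] at this
    exact_mod_cast this
  set X : R := ↑x
  set Z : R := ↑z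
  set Y : R := ↑z⁻¹
  have hXX : X * X = 1 := by simpa using congrArg Units.val hx
  have hZY : Z * Y = 1 := z.mul_inv
  have hYZ : Y * Z = 1 := z.inv_mul
  have hXZ : X * Z = Y * X := by simpa using congrArg Units.val hxz
  have hXZX : X * (Z * X) = Y := by rw [← mul_assoc, hXZ, mul_assoc, hXX, mul_one]
  have hXY : X * Y = Z * X := by rw [← hXZX, ← mul_assoc, hXX, one_mul]
  have c2 : ∀ a : R, Commute (2 : R) a := fun a => Nat.cast_commute 2 a
  have step : ∀ a : R, a * a = 0 → 2 ^ k * a = 0 := by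
    intro a ha
    refine sqz hp hm ?_ ?_
    · rw [mul_assoc, ← mul_assoc a, ← ((c2 a).pow_left k).eq, mul_assoc, ha]; simp
    · rw [← mul_assoc, (Nat.cast_commute m _).eq, hN, zero_mul]
  have h1 := step ((1 - X) * Z * (1 + X)) (by
    have : (1 + X) * (1 - X) = 0 := by noncomm_ring [hXX]
    calc _ = (1 - X) * Z * ((1 + X) * (1 - X)) * Z * (1 + X) := by simp only [mul_assoc]
      _ = 0 := by simp [this])
  have h2 := step ((1 + X) * Z * (1 - X)) (by
    have : (1 - X) * (1 + X) = 0 := by noncomm_ring [hXX]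
    calc _ = (1 + X) * Z * ((1 - X) * (1 + X)) * Z * (1 - X) := by simp only [mul_assoc]
      _ = 0 := by simp [this])
  have h3 : 2 ^ (k + 1) * (Z - Y) = 0 := by
    have : (1 - X) * Z * (1 + X) + (1 + X) * Z * (1 - X) = 2 * (Z - Y) := by
      rw [← hXZX]; noncomm_ring
    rw [pow_succ, mul_assoc, ← this, mul_add, h1, h2, add_zero]
  by_cases hzy : Z = Y
  · have : z * z = 1 := Units.ext (by rw [Units.val_mul]; nth_rewrite 2 [show (z : R) = Y from hzy]; exact hZY)
    rw [show 4 = 2 + 2 from rfl, pow_add, pow_two, this, one_mul]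
  have hc : ∀ c : R, c * Z = Z * c → IsUnit (X + c) → c * (Z - Y) = 0 := by
    rintro c h ⟨u, hu⟩
    have h' : c * Y = Y * c := by
      calc c * Y = Y * (Z * c) * Y := by rw [← mul_assoc, hYZ, one_mul]
        _ = Y * c := by rw [← h, mul_assoc, mul_assoc, hZY, mul_one]
    rcases hall u with h4 | h4
    · have h5 : (X + c) * Z = Z * (X + c) := by simpa [hu] using congrArg Units.val h4
      rw [add_mul, mul_add, h, add_left_inj, hXZ] at h5
      exact absurd (by rw [← mul_one Z, ← hXX, ← mul_assoc, ← h5, mul_assoc, hXX, mul_one]) hzy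
    · have h5 : (X + c) * Z = Y * (X + c) := by simpa [hu] using congrArg Units.val h4
      rw [add_mul, mul_add, hXZ, add_right_inj, ← h'] at h5
      rw [mul_sub, h5, sub_self]
  have h4 : ((2 * m : ℕ) : R) * (Z - Y) = 0 := by
    refine hc _ (Nat.cast_commute _ _).eq (IsNilpotent.isUnit_add_left_of_commute ⟨k + 1, ?_⟩ x.isUnit
      (Nat.cast_commute _ _))
    rw [← Nat.cast_pow, mul_pow, show 2 ^ (k + 1) * m ^ (k + 1) = (2 * m ^ k) * (2 ^ k * m) by ring]
    push_cast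
    rw [hN, mul_zero]
  have h5 : 2 * (Z - Y) = 0 := by
    have a1 : addOrderOf (Z - Y) ∣ 2 * m := addOrderOf_dvd_of_nsmul_eq_zero (by rwa [nsmul_eq_mul])
    have a2 : addOrderOf (Z - Y) ∣ 2 * 2 ^ k :=
      addOrderOf_dvd_of_nsmul_eq_zero (by rw [nsmul_eq_mul, ← pow_succ']; exact_mod_cast h3)
    have a3 := Nat.dvd_gcd a2 a1
    rw [Nat.gcd_mul_left, Nat.Coprime.pow_left k (Nat.coprime_two_left.2 hm), mul_one] at a3
    simpa [nsmul_eq_mul] using addOrderOf_dvd_iff_nsmul_eq_zero.1 a3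
  have h6 : 2 * Z ^ 2 = 2 := by
    have := congrArg (· * Z) h5
    simp only [mul_assoc, sub_mul, hYZ, zero_mul, mul_sub, mul_one] at this
    rw [pow_two]; exact sub_eq_zero.1 this
  have h7 : 2 * Y ^ 2 = 2 := by
    have := congrArg (· * Y) h5
    simp only [mul_assoc, sub_mul, hZY, zero_mul, mul_sub, mul_one] at this
    rw [pow_two]; exact (sub_eq_zero.1 this).symm
  have h8 : ∀ (A : R), 2 * A ^ 2 = 2 → ∀ j : ℕ, 2 * A ^ 2 ^ (j + 1) = 2 := by
    intro A hA j
    induction j with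
    | zero => simpa using hA
    | succ j ih => rw [pow_succ, pow_mul, pow_two, ← mul_assoc, ih, ih]
  have two : (2 : R) = 1 + 1 := by norm_num
  have h9 : ∀ j : ℕ, (Z - Y) ^ 2 ^ (j + 1) = Z ^ 2 ^ (j + 1) + Y ^ 2 ^ (j + 1) - 2 := by
    intro j
    induction j with
    | zero => simp only [zero_add, pow_one, pow_two]; rw [two]; noncomm_ring [hZY, hYZ]
    | succ j ih =>
      have b1 := h8 Z h6 j
      have b2 := h8 Y h7 j
      have b3 : Z ^ 2 ^ (j + 1) * Y ^ 2 ^ (j + 1) = 1 := by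
        simp only [Z, Y, ← Units.val_pow_eq_pow_val, ← Units.val_mul]; simp
      have b4 : Y ^ 2 ^ (j + 1) * Z ^ 2 ^ (j + 1) = 1 := by
        simp only [Z, Y, ← Units.val_pow_eq_pow_val, ← Units.val_mul]; simp
      rw [pow_succ 2 (j + 1), pow_mul, pow_mul, pow_mul, ih]
      generalize Z ^ 2 ^ (j + 1) = A at *
      generalize Y ^ 2 ^ (j + 1) = B at *
      have : (A + B - 2) ^ 2 =
          A ^ 2 + B ^ 2 + A * B + B * A + 2 * 2 - 2 * (2 * A) - 2 * (2 * B) := by
        rw [two]; noncomm_ring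
      rw [this, b1, b2, b3, b4, two]
      noncomm_ring
  have h10 : (Z - Y) ^ 2 ^ (n + 1) = 0 := by
    have b1 : Z ^ 2 ^ (n + 1) = 1 := by simpa using congrArg Units.val hz
    have b2 : Y ^ 2 ^ (n + 1) = 1 := by
      simp only [Y, ← Units.val_pow_eq_pow_val, inv_pow, hz]; simp
    rw [h9, b1, b2]; norm_num
  have h11 : (Z - Y) * (Z - Y) = 0 := by
    refine hc _ (by noncomm_ring [hZY, hYZ]) ?_
    have : (X + (Z - Y)) ^ 2 = 1 + (Z - Y) ^ 2 := by noncomm_ring [hXX, hXZ, hXY]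
    rw [← isUnit_pow_iff two_ne_zero, this]
    exact IsNilpotent.isUnit_one_add ⟨2 ^ n, by rw [← pow_mul, ← pow_succ', h10]⟩
  refine Units.ext ?_
  have h12 : Z ^ 4 + 1 - 2 * Z ^ 2 = Z * (Z * ((Z - Y) * (Z - Y))) := by
    have : Z * (Z * (Y * Y)) = 1 := by rw [← mul_assoc Z Y, hZY, one_mul, hZY]
    noncomm_ring [hZY, hYZ, this]
  rw [h11, h6, mul_zero, mul_zero] at h12
  have : Z ^ 4 = 1 := by rw [← sub_eq_zero, ← h12, two]; noncomm_ring
  simpa using this

open DihedralGroup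

theorem pg (n : ℕ) : IsPGroup 2 (DihedralGroup (2 ^ n)) :=
  IsPGroup.of_card (n := n + 1) (by rw [nat_card, pow_succ'])

theorem r4 {n : ℕ} (hn : 3 ≤ n) : (r 1 : DihedralGroup (2 ^ n)) ^ 4 ≠ 1 := fun h => by
  have h1 := orderOf_dvd_of_pow_eq_one h
  rw [orderOf_r_one] at h1
  have := (Nat.pow_le_pow_right two_pos hn).trans (Nat.le_of_dvd (by norm_num) h1)
  omega

theorem main {n : ℕ} (hn : 3 ≤ n) (H : Type) [Group H] (hH : IsPGroup 2 H) :
    ¬ Realizable (DihedralGroup (2 ^ n) × H) := by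
  rintro ⟨R, _, _, ⟨e⟩⟩
  have hp : IsPGroup 2 (DihedralGroup (2 ^ n) × H) := fun g => by
    obtain ⟨a, ha⟩ := pg n g.1
    obtain ⟨b, hb⟩ := hH g.2
    refine ⟨a + b, Prod.ext ?_ ?_⟩
    · simp [pow_add, pow_mul, ha]
    · simp [pow_add, mul_comm (2 ^ a), pow_mul, hb]
  have := key (hp.of_equiv e) (e (sr 0, 1)) (e (r 1, 1)) n (by rw [← map_mul]; simp) ?_ ?_ ?_
  · rw [← map_pow, map_eq_one_iff _ e.injective] at this
    exact r4 hn (congrArg Prod.fst this)
  · rw [← map_pow, map_eq_one_iff _ e.injective, pow_succ, pow_mul]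
    refine Prod.ext ?_ (by simp)
    simp only [Prod.pow_fst, Prod.fst_one, r_one_pow_n, one_pow]
  · rw [← map_inv, ← map_mul, ← map_mul]; simp
  · intro u
    obtain ⟨⟨g, h⟩, rfl⟩ := e.surjective u
    simp only [← map_inv, ← map_mul, EmbeddingLike.apply_eq_iff_eq]
    rcases g with i | i
    · left; simp [add_comm]
    · right; simp

theorem result (n : ℕ) (hn : 3 ≤ n) :
    Nat.card (DihedralGroup (2 ^ n)) = 2 ^ (n + 1) ∧
    (∃ a b : DihedralGroup (2 ^ n), a * b ≠ b * a) ∧ ¬ Realizable (DihedralGroup (2 ^ n)) ∧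
    ∀ (H : Type) [Group H] [Finite H], (∃ k, Nat.card H = 2 ^ k) →
      ¬ Realizable (DihedralGroup (2 ^ n) × H) := by
  refine ⟨by rw [nat_card, pow_succ'], ⟨sr 0, r 1, fun h => r4 hn ?_⟩, ?_,
    fun H _ _ ⟨k, hk⟩ => main hn H (IsPGroup.of_card hk)⟩
  · have h1 : (1 : ZMod (2 ^ n)) = -1 := by simpa using h
    have h2 : (r 1 : DihedralGroup (2 ^ n)) * r 1 = 1 := by
      rw [r_mul_r]; nth_rewrite 1 [h1]; simp
    rw [show 4 = 2 + 2 from rfl, pow_add, pow_two, h2, one_mul]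
  · rintro ⟨R, i1, i2, ⟨e⟩⟩
    exact main hn Unit (fun g => ⟨0, rfl⟩) ⟨R, i1, i2, ⟨MulEquiv.prodUnique.trans e⟩⟩

end Pool.Agent.Results.MP_c51eea_al.No
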